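import Mathlib
import Pool.Agent.Q299.Enl

set_option autoImplicit false

namespace Pool.Agent.Results.MP_2734af_lc.NoMultipleInMonad

open Filter Pool.Agent.Q299.MUlt Pool.Agent.Q299.Enl

/-- the elements `p_k q_{k,i}` -/
noncomputable def c (k i : ℕ) : ℕ+ := pr (2 * k) * pr (2 * Nat.pair k i + 1)

theorem even_dvd {k k' n : ℕ} (h : pr (2 * k) ∣ pr (2 * k') * pr (2 * n + 1)) : k = k' := by
  have h1 : (pr (2 * k) : ℕ) ∣ pr (2 * k') * pr (2 * n + 1) := by
    rw [← PNat.mul_coe]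
    exact PNat.dvd_iff.1 h
  rcases (Nat.Prime.dvd_mul (pr_prime _)).1 h1 with h4 | h4
  · rw [Nat.prime_dvd_prime_iff_eq (pr_prime _) (pr_prime _)] at h4
    have := pr_inj (PNat.eq h4)
    omega
  · rw [Nat.prime_dvd_prime_iff_eq (pr_prime _) (pr_prime _)] at h4
    have := pr_inj (PNat.eq h4)
    omega

theorem c_inj (k i k' i' : ℕ) (h : c k i = c k' i') : k = k' ∧ i = i' := by
  have h1 : k = k' := even_dvd (n := Nat.pair k' i') ⟨pr (2 * Nat.pair k i + 1), h.symm⟩
  subst h1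
  refine ⟨rfl, ?_⟩
  have h2 : pr (2 * Nat.pair k i + 1) = pr (2 * Nat.pair k i' + 1) := mul_left_cancel h
  have h3 := pr_inj h2
  have h4 : Nat.pair k i = Nat.pair k i' := by omega
  exact (Nat.pair_eq_pair.1 h4).2

/-- There are an enlargement, ultrafilters `F`, `G` with `F` dividing `G`, and an element `x` of the
monad of `F` which divides no element of the monad of `G`. -/
theorem result : ∃ (I : Type) (W : Ultrafilter I), Enlargement W ∧
    ∃ F G : Ultrafilter ℕ+, tdvd F G ∧ ∃ x : Star W, v x = F ∧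
      ∀ y : Star W, v y = G → ¬ sdvd x y := by
  obtain ⟨J, V, hV⟩ := exists_enlargement
  refine ⟨ℕ × J, tensor E1 V, enlargement_tensor E1 V hV, E1.map (fun k => pr (2 * k)),
    E.map (fun x => c x.1 x.2), ?_, ((fun x => pr (2 * x.1) : ℕ × J → ℕ+) : Star (tensor E1 V)),
    ?_, ?_⟩
  · intro A hA
    have hA' : ∀ᶠ x in (E : Filter (ℕ × ℕ)), pr (2 * x.1) ∈ A := hA
    change ∀ᶠ x in (E : Filter (ℕ × ℕ)), ∃ a ∈ A, a ∣ c x.1 x.2
    filter_upwards [hA'] with x hx
    exact ⟨_, hx, dvd_mul_right _ _⟩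
  · apply Ultrafilter.coe_injective
    ext A
    change (∀ᶠ k in (E1 : Filter ℕ), ∀ᶠ j in (V : Filter J), pr (2 * k) ∈ A) ↔
      ∀ᶠ k in (E1 : Filter ℕ), pr (2 * k) ∈ A
    simp only [Filter.eventually_const]
  · intro y hy hxy
    induction y using Filter.Germ.inductionOn with
    | h f =>
    have h1 := sdvd_coe _ _ hxy
    refine main V c c_inj f hy ?_
    filter_upwards [h1] with x hx k i hki
    rw [hki] at hx
    exact (even_dvd hx).symm

end Pool.Agent.Results.MP_2734af_lc.NoMultipleInMonad
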